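import Mathlib
import Pool.Agent.X20.RestrictedParity

/-!
# MP_4155d9_nt, Q1: an explicit infinite family with odd density tending to `1/2`

For every `e ≥ 0` and all odd positive integers `m_2, m_3, ...`, the sequence
`a_1 = 1`, `a_2 = 2^e m_2`, `a_k = 2^{e+k-3} m_k` (`k ≥ 3`) has odd density exactly `1/2` for
every `k ≥ 2`.
-/

namespace Pool.Agent.Results.MP_4155d9_nt.ExplicitFamily

open Filter Topology Pool.Agent.X20.RestrictedParity

/-- The sequence `a_1 = 1`, `a_2 = 2^e m_2`, `a_k = 2^{e+k-3} m_k` for `k ≥ 3`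
(listed as `seq e m 0, seq e m 1, ...`, with `m_2, m_3, ...` listed as `m 0, m 1, ...`). -/
def seq (e : ℕ) (m : ℕ → ℕ) : ℕ → ℕ
  | 0 => 1
  | 1 => 2 ^ e * m 0
  | (i + 2) => 2 ^ (e + i) * m (i + 1)

/-- `A` is a sequence of positive integers with `gcd A = 1` for which the odd densities
`δ_A(k)` (`k ≥ 1`) tend to `1/2`. -/
def Good (A : ℕ → ℕ) : Prop :=
  (∀ i, 0 < A i) ∧ (∀ d : ℕ, (∀ i, d ∣ A i) → d = 1) ∧
    ∃ δ : ℕ → ℝ, (∀ k, 1 ≤ k → HasOddDensity A k (δ k)) ∧ Tendsto δ atTop (𝓝 (1 / 2))

theorem seq_pos (e : ℕ) (m : ℕ → ℕ) (hm : ∀ i, Odd (m i)) (i : ℕ) : 0 < seq e m i := by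
  rcases i with _ | _ | i
  · exact Nat.one_pos
  · exact Nat.mul_pos (by positivity) (hm 0).pos
  · exact Nat.mul_pos (by positivity) (hm (i + 1)).pos

theorem one_part (a : ℕ → ℕ) (ha : ∀ i, 0 < a i) (h0 : a 0 = 1) (n : ℕ) : v a 1 n = 1 := by
  induction n with
  | zero =>
    rw [v_succ_of_lt a 0 0 (by rw [h0]; norm_num)]
    simp [v, pA_zero]
  | succ n ih =>
    have := v_succ_add a ha 0 n
    rw [h0] at this
    rw [zero_add] at this
    rw [this, ih]
    simp [v, pA_zero]

theorem zmod_natCast_odd {q : ℕ} (hq : Odd q) : ((q : ℕ) : ZMod 2) = 1 :=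
  ZMod.natCast_eq_one_iff_odd.mpr hq

/-- anti-periodicity is inherited by odd multiples -/
theorem anti_mul (f : ℕ → ZMod 2) (L : ℕ) (h : ∀ n, f (n + L) = f n + 1) (r : ℕ) (n : ℕ) :
    f (n + r * L) = f n + r := by
  induction r with
  | zero => simp
  | succ r ih =>
    have e : n + (r + 1) * L = (n + r * L) + L := by ring
    rw [e, h, ih]
    push_cast
    ring

/-- the key induction -/
theorem key (e : ℕ) (m : ℕ → ℕ) (hm : ∀ i, Odd (m i)) (k : ℕ) :
    ∃ M : ℕ, Odd M ∧ ∀ n, v (seq e m) (k + 2) (n + 2 ^ (e + k) * M) = v (seq e m) (k + 2) n + 1 := by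
  have ha := seq_pos e m hm
  induction k with
  | zero =>
    refine ⟨m 0, hm 0, fun n => ?_⟩
    have h := v_succ_add (seq e m) ha 1 n
    have h1 : seq e m 1 = 2 ^ (e + 0) * m 0 := rfl
    rw [h1] at h
    rw [h, one_part _ ha rfl, add_comm]
  | succ k ih =>
    obtain ⟨M, hM, hanti⟩ := ih
    have hak : seq e m (k + 2) = 2 ^ (e + k) * m (k + 1) := rfl
    refine ⟨M * m (k + 1), hM.mul (hm (k + 1)), fun n => ?_⟩
    have e1 : n + 2 ^ (e + (k + 1)) * (M * m (k + 1)) = n + (2 * M) * seq e m (k + 2) := by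
      rw [hak]; ring
    rw [e1, v_succ_add_mul _ ha (k + 2)]
    rw [two_mul, Finset.sum_range_add, ← Finset.sum_add_distrib]
    have hpair : ∀ j ∈ Finset.range M,
        v (seq e m) (k + 2) (n + (j + 1) * seq e m (k + 2)) +
          v (seq e m) (k + 2) (n + (M + j + 1) * seq e m (k + 2)) = 1 := by
      intro j _
      have e2 : n + (M + j + 1) * seq e m (k + 2) =
          (n + (j + 1) * seq e m (k + 2)) + m (k + 1) * (2 ^ (e + k) * M) := by
        rw [hak]; ring
      rw [e2, anti_mul _ _ hanti, zmod_natCast_odd (hm (k + 1)), ← add_assoc]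
      have h2 : ∀ x : ZMod 2, x + x + 1 = 1 := by decide
      exact h2 _
    rw [Finset.sum_congr rfl hpair, Finset.sum_const, Finset.card_range, nsmul_eq_mul, mul_one,
      zmod_natCast_odd hM, add_comm]

theorem density (e : ℕ) (m : ℕ → ℕ) (hm : ∀ i, Odd (m i)) (k : ℕ) :
    HasOddDensity (seq e m) (k + 2) (1 / 2) := by
  obtain ⟨M, hM, hanti⟩ := key e m hm k
  set L := 2 ^ (e + k) * M with hL
  have hLpos : 0 < L := Nat.mul_pos (by positivity) hM.pos
  set a := seq e m with ha
  have hper : ∀ n, v a (k + 2) (n + 2 * L) = v a (k + 2) n := by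
    intro n
    have e1 : n + 2 * L = (n + L) + L := by ring
    rw [e1, hanti, hanti]
    have h2 : ∀ x : ZMod 2, x + 1 + 1 = x := by decide
    exact h2 _
  have hd := density_periodic (fun n => Odd (pA a (k + 2) n)) (2 * L) (by omega) (fun n => by
    rw [odd_iff, odd_iff, hper])
  unfold HasOddDensity
  have hcard : ((Finset.range (2 * L)).filter fun n => Odd (pA a (k + 2) n)).card = L := by
    have hset : ((Finset.range (2 * L)).filter fun n => Odd (pA a (k + 2) n)) =
        (Finset.range (2 * L)).filter fun n => v a (k + 2) n = 1 :=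
      Finset.filter_congr fun n _ => odd_iff a (k + 2) n
    rw [hset, ← Nat.count_eq_card_filter_range, two_mul, Nat.count_add]
    have hflip : ∀ i, v a (k + 2) (L + i) = 1 ↔ ¬ v a (k + 2) i = 1 := by
      intro i
      rw [add_comm L i, hanti]
      have h2 : ∀ x : ZMod 2, x + 1 = 1 ↔ ¬ x = 1 := by decide
      exact h2 _
    have : Nat.count (fun i => v a (k + 2) (L + i) = 1) L =
        Nat.count (fun i => ¬ v a (k + 2) i = 1) L := by
      simp only [Nat.count_eq_card_filter_range]
      congr 1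
      exact Finset.filter_congr fun i _ => hflip i
    rw [this, Nat.count_eq_card_filter_range, Nat.count_eq_card_filter_range]
    have := Finset.card_filter_add_card_filter_not (s := Finset.range L)
      (fun i => v a (k + 2) i = 1)
    rw [Finset.card_range] at this
    exact this
  rw [hcard] at hd
  have hval : ((L : ℝ) / ((2 * L : ℕ) : ℝ)) = 1 / 2 := by
    have : (0 : ℝ) < L := by exact_mod_cast hLpos
    push_cast
    field_simp
  rw [hval] at hd
  exact hd

theorem density_one (e : ℕ) (m : ℕ → ℕ) (hm : ∀ i, Odd (m i)) :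
    HasOddDensity (seq e m) 1 1 := by
  have hd := density_periodic (fun n => Odd (pA (seq e m) 1 n)) 1 (by norm_num) (fun n => by
    rw [odd_iff, odd_iff, one_part _ (seq_pos e m hm) rfl, one_part _ (seq_pos e m hm) rfl])
  have hcard : ((Finset.range 1).filter fun n => Odd (pA (seq e m) 1 n)).card = 1 := by
    have : ((Finset.range 1).filter fun n => Odd (pA (seq e m) 1 n)) = Finset.range 1 := by
      apply Finset.filter_true_of_mem
      intro n _
      rw [odd_iff]
      exact one_part _ (seq_pos e m hm) rfl n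
    rw [this, Finset.card_range]
  rw [hcard] at hd
  unfold HasOddDensity
  simpa using hd

theorem good_seq (e : ℕ) (m : ℕ → ℕ) (hm : ∀ i, Odd (m i)) : Good (seq e m) := by
  refine ⟨seq_pos e m hm, ?_, fun k => if k = 1 then 1 else 1 / 2, ?_, ?_⟩
  · intro d hd
    exact Nat.dvd_one.mp (hd 0)
  · intro k hk
    by_cases h1 : k = 1
    · subst h1
      simpa using density_one e m hm
    · obtain ⟨j, rfl⟩ : ∃ j, k = j + 2 := ⟨k - 2, by omega⟩
      simpa using density e m hm j
  · apply tendsto_const_nhds.congr'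
    filter_upwards [eventually_gt_atTop 1] with k hk
    rw [if_neg (by omega)]

/-- the odd parts `1, 3, 3, 3, ...` -/
def oddParts (i : ℕ) : ℕ := if i = 0 then 1 else 3

theorem oddParts_odd (i : ℕ) : Odd (oddParts i) := by
  unfold oddParts
  split_ifs <;> decide

/-- `1 < 2^e < 3 · 2^e < 3 · 2^{e+1} < ...` for `e ≥ 1` -/
theorem strictMono_seq (e : ℕ) (he : 1 ≤ e) : StrictMono (seq e oddParts) := by
  apply strictMono_nat_of_lt_succ
  intro i
  rcases i with _ | _ | i
  · show 1 < 2 ^ e * oddParts 0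
    simp only [oddParts, if_true, mul_one]
    exact Nat.one_lt_two_pow (by omega)
  · show 2 ^ e * oddParts 0 < 2 ^ (e + 0) * oddParts 1
    have : 0 < 2 ^ e := by positivity
    simp only [oddParts, if_true, add_zero, mul_one, one_ne_zero, if_false]
    omega
  · show 2 ^ (e + i) * oddParts (i + 1) < 2 ^ (e + (i + 1)) * oddParts (i + 1 + 1)
    have h1 : oddParts (i + 1) = 3 := rfl
    have h2 : oddParts (i + 1 + 1) = 3 := rfl
    rw [h1, h2, ← add_assoc, pow_succ]
    have : 0 < 2 ^ (e + i) := by positivity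
    omega

/-- **Positive answer to Q1.**  For every `e ≥ 0` and all odd positive integers `m_2, m_3, ...`
the sequence `a_1 = 1`, `a_2 = 2^e m_2`, `a_k = 2^{e+k-3} m_k` (`k ≥ 3`) has positive terms with
greatest common divisor `1`, its odd densities tend to `1/2`, and in fact the odd density
`δ_A(k)` equals `1/2` exactly for every `k ≥ 2`.  This family contains infinitely many strictly
increasing sequences, namely `1, 2^e, 3·2^e, 3·2^{e+1}, 3·2^{e+2}, ...` for `e = 1, 2, 3, ...`. -/
theorem result :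
    (∀ (e : ℕ) (m : ℕ → ℕ), (∀ i, Odd (m i)) →
      Good (seq e m) ∧ ∀ k, 2 ≤ k → HasOddDensity (seq e m) k (1 / 2)) ∧
    (∀ e, 1 ≤ e → StrictMono (seq e oddParts)) ∧
    {A : ℕ → ℕ | StrictMono A ∧ Good A ∧ ∃ e, A = seq e oddParts}.Infinite := by
  refine ⟨fun e m hm => ⟨good_seq e m hm, fun k hk => ?_⟩, strictMono_seq, ?_⟩
  · obtain ⟨j, rfl⟩ : ∃ j, k = j + 2 := ⟨k - 2, by omega⟩
    exact density e m hm j
  · apply Set.infinite_of_injective_forall_mem (f := fun e : ℕ => seq (e + 1) oddParts)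
    · intro e1 e2 h
      have h1 : seq (e1 + 1) oddParts 1 = seq (e2 + 1) oddParts 1 := congrFun h 1
      have h2 : 2 ^ (e1 + 1) * oddParts 0 = 2 ^ (e2 + 1) * oddParts 0 := h1
      simp only [oddParts, if_true, mul_one] at h2
      have := Nat.pow_right_injective le_rfl h2
      omega
    · intro e
      exact ⟨strictMono_seq (e + 1) (by omega), good_seq (e + 1) oddParts oddParts_odd, e + 1, rfl⟩

end Pool.Agent.Results.MP_4155d9_nt.ExplicitFamily
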